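import Pool.Agent.Helper65.BQ.St

/-! Project BQ (MP_ee405c_gt), module CPT: compactness lemmas. -/

set_option autoImplicit false

namespace Pool.Agent.Helper42.BQ

open Set Topology TopologicalSpace
open Pool.Agent.Helper9.SID Pool.Agent.Helper65.BQ

theorem pCPT : StCPT := by
  intro K _ _ _ f κ
  have hcl : ∀ L : ℕ → Set K, (∀ i, Par (f (κ i)) (L i)) → ∀ i, IsClosed (L i) :=
    fun L hL i => (hL i).1
  refine ⟨?_, ?_, ?_⟩
  · intro T hT hE L hL
    have hc := hcl L hL
    have key : (⋂ n, (T ∩ ⋂ i ∈ Finset.range n, L i)).Nonempty := by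
      refine IsCompact.nonempty_iInter_of_sequence_nonempty_isCompact_isClosed
        (fun n => T ∩ ⋂ i ∈ Finset.range n, L i) ?_ ?_ ?_ ?_
      · intro n
        refine inter_subset_inter_right T ?_
        refine biInter_subset_biInter_left ?_
        intro i hi
        have hi' := Finset.mem_range.1 hi
        exact Finset.mem_range.2 (by omega)
      · intro n
        exact hE n L hL
      · exact (hT.inter (isClosed_biInter fun i _ => hc i)).isCompact
      · intro n
        exact hT.inter (isClosed_biInter fun i _ => hc i)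
    obtain ⟨x, hx⟩ := key
    rw [mem_iInter] at hx
    refine ⟨x, (hx 0).1, ?_⟩
    rw [mem_iInter]
    intro i
    have h1 := (hx (i + 1)).2
    rw [mem_iInter₂] at h1
    exact h1 i (Finset.mem_range.2 (by omega))
  · intro T hT hA hE L hL
    have hc := hcl L hL
    have key : (⋂ n, (T n ∩ ⋂ i, L i)).Nonempty := by
      refine IsCompact.nonempty_iInter_of_sequence_nonempty_isCompact_isClosed
        (fun n => T n ∩ ⋂ i, L i) ?_ ?_ ?_ ?_
      · intro n
        exact inter_subset_inter_left _ (hA (Nat.le_succ n))
      · intro n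
        exact hE n L hL
      · exact ((hT 0).inter (isClosed_iInter hc)).isCompact
      · intro n
        exact (hT n).inter (isClosed_iInter hc)
    obtain ⟨x, hx⟩ := key
    rw [mem_iInter] at hx
    exact ⟨x, mem_iInter.2 fun n => (hx n).1, (hx 0).2⟩
  · intro c hne hch hE L hL
    have hc := hcl L hL
    haveI : Nonempty c := hne.to_subtype
    have key : (⋂ t : c, ((t : Set K) ∩ ⋂ i, L i)).Nonempty := by
      refine IsCompact.nonempty_iInter_of_directed_nonempty_isCompact_isClosed
        (fun t : c => (t : Set K) ∩ ⋂ i, L i) ?_ ?_ ?_ ?_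
      · intro s t
        rcases hch.total s.2 t.2 with h | h
        · exact ⟨s, Subset.rfl, inter_subset_inter_left _ h⟩
        · exact ⟨t, inter_subset_inter_left _ h, Subset.rfl⟩
      · intro t
        exact (hE t t.2).2 L hL
      · intro t
        exact ((hE t t.2).1.inter (isClosed_iInter hc)).isCompact
      · intro t
        exact (hE t t.2).1.inter (isClosed_iInter hc)
    obtain ⟨x, hx⟩ := key
    rw [mem_iInter] at hx
    obtain ⟨t0, ht0⟩ := hne
    exact ⟨x, mem_sInter.2 fun t ht => (hx ⟨t, ht⟩).1, (hx ⟨t0, ht0⟩).2⟩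

end Pool.Agent.Helper42.BQ
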